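import Pool.Agent.Helper58C.FormC

/-!
# Formula size and sparse determinantal representations: bounds
-/

namespace H58C

open MvPolynomial Filter Topology H1FS

/-- the parameters -/
lemma params (m : ℕ) : ∃ n₀ : ℕ, ∀ n : ℕ, n₀ ≤ n → ∃ p a : ℕ,
    2 * (m + 1) * p ≤ n ∧ p ≤ 2 ^ a ∧ 2 ≤ p ∧ 0 < Real.log n ∧
    (n : ℝ) / (4 * (m + 1)) ≤ p ∧
    (n : ℝ) / (48 * (m + 1) ^ 2 * Real.log n) ≤ ((p / (2 * (m + 1) * a) : ℕ) : ℝ) := by
  have hk0 : (0 : ℝ) < 48 * ((m : ℝ) + 1) ^ 2 := by positivity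
  have h1 : ∀ᶠ n : ℕ in atTop, 48 * ((m : ℝ) + 1) ^ 2 * Real.log n ≤ n := by
    have h2 := Real.isLittleO_log_id_atTop.bound (c := (48 * ((m : ℝ) + 1) ^ 2)⁻¹) (by positivity)
    have h3 := tendsto_natCast_atTop_atTop (R := ℝ) |>.eventually h2
    filter_upwards [h3, Filter.eventually_ge_atTop 1] with n hn hn1
    simp only [id_eq, Real.norm_eq_abs] at hn
    have h4 : (0 : ℝ) ≤ n := Nat.cast_nonneg _
    rw [abs_of_nonneg h4] at hn
    have h5 := le_trans (le_abs_self _) hn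
    calc 48 * ((m : ℝ) + 1) ^ 2 * Real.log n ≤
          48 * ((m : ℝ) + 1) ^ 2 * ((48 * ((m : ℝ) + 1) ^ 2)⁻¹ * n) :=
          mul_le_mul_of_nonneg_left h5 hk0.le
      _ = n := by rw [← mul_assoc, mul_inv_cancel₀ hk0.ne', one_mul]
  obtain ⟨n1, hn1⟩ := Filter.eventually_atTop.1 h1
  refine ⟨max n1 (8 * (m + 1)), fun n hn => ?_⟩
  have hna : n1 ≤ n := le_trans (le_max_left _ _) hn
  have hnb : 8 * (m + 1) ≤ n := le_trans (le_max_right _ _) hn
  set p := n / (2 * (m + 1)) with hp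
  have hp1 : 2 * (m + 1) * p ≤ n := Nat.mul_div_le _ _
  have hp2 : n < 2 * (m + 1) * (p + 1) := Nat.lt_mul_div_succ n (by omega)
  have hp3 : 2 ≤ p := by
    rw [hp, Nat.le_div_iff_mul_le (by omega)]
    omega
  have hnR : (8 : ℝ) * (m + 1) ≤ n := by exact_mod_cast hnb
  have hm0 : (0 : ℝ) ≤ m := Nat.cast_nonneg _
  have hn8 : (8 : ℝ) ≤ n := by nlinarith
  have hlog : (1 : ℝ) ≤ Real.log n := by
    rw [Real.le_log_iff_exp_le (by linarith)]
    have := Real.exp_one_lt_d9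
    linarith
  have hpR : (n : ℝ) / (4 * (m + 1)) ≤ p := by
    rw [div_le_iff₀ (by positivity)]
    have h2 : (n : ℝ) < 2 * (m + 1) * (p + 1) := by exact_mod_cast hp2
    have h3 : (2 : ℝ) ≤ p := by exact_mod_cast hp3
    nlinarith
  refine ⟨p, Nat.clog 2 p, hp1, Nat.le_pow_clog (by norm_num) p, hp3, by linarith, hpR, ?_⟩
  set a := Nat.clog 2 p with ha
  have ha1 : 1 ≤ a := by
    rw [ha]
    exact Nat.clog_pos (by norm_num) hp3
  have ha2 : 2 ^ (a - 1) < p := Nat.pow_pred_clog_lt_self (by norm_num) (by omega)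
  have hpn : p ≤ n := Nat.div_le_self _ _
  have ha3 : ((a : ℝ) - 1) * Real.log 2 ≤ Real.log n := by
    have h2 : ((2 ^ (a - 1) : ℕ) : ℝ) ≤ n := by exact_mod_cast (ha2.le.trans hpn)
    have h3 := Real.log_le_log (by positivity) h2
    rw [Nat.cast_pow, Real.log_pow, Nat.cast_sub ha1] at h3
    simpa using h3
  have hl2 : (0.6931471803 : ℝ) < Real.log 2 := Real.log_two_gt_d9
  have ha4 : (a : ℝ) ≤ 3 * Real.log n := by
    have h2 : (1 : ℝ) ≤ a := by exact_mod_cast ha1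
    have h3 : ((a : ℝ) - 1) * 0.6931471803 ≤ Real.log n :=
      le_trans (mul_le_mul_of_nonneg_left hl2.le (by linarith)) ha3
    nlinarith
  have ha0 : (0 : ℝ) < a := by exact_mod_cast ha1
  set d := 2 * (m + 1) * a with hd
  have hd0 : 0 < d := by positivity
  have hdR : (d : ℝ) ≤ 6 * (m + 1) * Real.log n := by
    rw [hd]
    push_cast
    nlinarith
  have hdR0 : (0 : ℝ) < d := by exact_mod_cast hd0
  have hfl : (p : ℝ) < d * (((p / d : ℕ) : ℝ) + 1) := by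
    have := Nat.lt_mul_div_succ p hd0
    exact_mod_cast this
  have hbig : 48 * ((m : ℝ) + 1) ^ 2 * Real.log n ≤ n := hn1 n hna
  have hL0 : (0 : ℝ) < Real.log n := by linarith
  have hX : (n : ℝ) / (24 * (m + 1) ^ 2 * Real.log n) ≤ ((p / d : ℕ) : ℝ) + 1 := by
    rw [div_le_iff₀ (by positivity)]
    have h2 : (n : ℝ) ≤ 4 * (m + 1) * p := by
      rw [div_le_iff₀ (by positivity)] at hpR
      linarith
    have h3 : (p : ℝ) ≤ 6 * (m + 1) * Real.log n * (((p / d : ℕ) : ℝ) + 1) :=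
      hfl.le.trans (mul_le_mul_of_nonneg_right hdR (by positivity))
    calc (n : ℝ) ≤ 4 * (m + 1) * p := h2
      _ ≤ 4 * (m + 1) * (6 * (m + 1) * Real.log n * (((p / d : ℕ) : ℝ) + 1)) :=
          mul_le_mul_of_nonneg_left h3 (by positivity)
      _ = _ := by ring
  have hY : (n : ℝ) / (24 * (m + 1) ^ 2 * Real.log n) =
      2 * ((n : ℝ) / (48 * (m + 1) ^ 2 * Real.log n)) := by
    field_simp
    ring
  have hZ : (1 : ℝ) ≤ (n : ℝ) / (48 * (m + 1) ^ 2 * Real.log n) := by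
    rw [le_div_iff₀ (by positivity), one_mul]
    exact hbig
  linarith

lemma extP_ne_zero {σ A : Type} [Fintype σ] [DecidableEq σ] [Fintype A] [Nonempty A]
    (holds : σ → A → Prop) : extP holds ≠ 0 := by
  classical
  intro h
  have h1 := congrArg (eval (0 : σ → ℂ)) h
  unfold extP at h1
  rw [map_sum, map_zero] at h1
  have h2 : ∀ a : A, eval (0 : σ → ℂ) (∏ C : σ, if holds C a then 1 else 1 - X C) = 1 := by
    intro a
    rw [map_prod]
    refine Finset.prod_eq_one fun C _ => ?_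
    split_ifs <;> simp
  rw [Finset.sum_congr rfl fun a _ => h2 a, Finset.sum_const, Finset.card_univ, nsmul_eq_mul,
    mul_one] at h1
  exact (Nat.cast_ne_zero.2 Fintype.card_ne_zero) h1

theorem form_main (k : ℕ) (hk : 2 ≤ k) :
    ∃ c : ℝ, 0 < c ∧ ∃ n₀ : ℕ, ∀ n : ℕ, n₀ ≤ n →
      ∀ {σ : Type} [Fintype σ] [DecidableEq σ] (pc : KSet n k → σ), Function.Injective pc →
      ∀ (holds : σ → (Fin n → Bool) → Prop),
        (∀ K a, holds (pc K) a ↔ ∃ i ∈ K.1, a i = true) →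
      ∀ (s : ℕ) (g : ℕ → MvPolynomial σ ℂ),
        (∀ d, Tendsto (fun t => coeff d (g t)) atTop (𝓝 (coeff d (extP holds)))) →
        ((∀ t, ∃ F : RFml σ ℂ, F.val = algebraMap _ _ (g t) ∧ F.size ≤ s) →
          c * ((n : ℝ) ^ (2 * k) / Real.log n) ≤ s) ∧
        ((∀ t, ∃ (N : ℕ) (M : Matrix (Fin N) (Fin N) (MvPolynomial σ ℂ)),
          (∀ i j, (M i j).totalDegree ≤ 1) ∧ M.det = g t ∧ ∑ i, ∑ j, (M i j).vars.card ≤ s) →
          c * ((n : ℝ) ^ k * Real.sqrt ((n : ℝ) ^ k) / Real.log n) ≤ s) := by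
  obtain ⟨m, rfl⟩ : ∃ m, k = m + 1 := ⟨k - 1, by omega⟩
  obtain ⟨n₀, hn₀⟩ := params m
  set δ : ℝ := 1 / (4 * (m + 1)) with hδ
  have hδ0 : 0 < δ := by positivity
  set c1 : ℝ := δ ^ (m + (m + 1)) / (48 * (m + 1) ^ 2) / 4 with hc1
  set c2 : ℝ := δ ^ m * Real.sqrt (δ ^ (m + 1)) / (48 * (m + 1) ^ 2) / 2 with hc2
  have hc10 : 0 < c1 := by positivity
  have hc20 : 0 < c2 := by
    have : 0 < Real.sqrt (δ ^ (m + 1)) := Real.sqrt_pos.2 (by positivity)
    positivity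
  refine ⟨min c1 c2, lt_min hc10 hc20, n₀, fun n hn σ _ _ pc hpc holds hh s g hlim => ?_⟩
  obtain ⟨p, a, q1, q2, q3, q4, q5, q6⟩ := hn₀ n hn
  have : NeZero p := ⟨by omega⟩
  obtain ⟨T, pts, w, t1, t2, t3, t4⟩ := gadget_family (by omega) q2 q1 pc hpc holds hh
  have hne := extP_ne_zero holds
  have hev : ∀ (hdeg : ∀ t, (g t).totalDegree ≤ s), ∃ t, (∀ b, LinearIndependent ℂ
      (fun (i : Fin (m + 1) → Fin p) (x : Finset (LI' m a)) =>
        eval (pts b x) (pderiv (w b i) (g t)))) ∧ g t ≠ 0 := by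
    intro hdeg
    have e1 := li_eventually pts w (extP holds) t4 s g hdeg hlim
    have e2 : ∀ᶠ t in atTop, g t ≠ 0 := by
      obtain ⟨d, hd⟩ := MvPolynomial.ne_zero_iff.1 hne
      filter_upwards [(hlim d).eventually_ne hd] with t ht h
      exact ht (by rw [h, coeff_zero])
    exact (e1.and e2).exists
  have hcard : Fintype.card (BI m p a) = p ^ m * (p / (2 * (m + 1) * a)) := by
    simp [BI]
  have hcW : Fintype.card (Fin (m + 1) → Fin p) = p ^ (m + 1) := by simp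
  have hW2 : 2 ≤ p ^ (m + 1) := by
    calc 2 ≤ p := q3
      _ = p ^ 1 := (pow_one p).symm
      _ ≤ p ^ (m + 1) := Nat.pow_le_pow_right (by omega) (by omega)
  have hnpos : (0 : ℝ) ≤ n := Nat.cast_nonneg _
  have hδn : δ * n ≤ p := by
    rw [hδ, one_div, inv_mul_eq_div]
    exact q5
  have hδn0 : 0 ≤ δ * n := by positivity
  have hBlow : (δ * n) ^ m * ((n : ℝ) / (48 * (m + 1) ^ 2 * Real.log n)) ≤
      (Fintype.card (BI m p a) : ℝ) := by
    rw [hcard, Nat.cast_mul, Nat.cast_pow]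
    exact mul_le_mul (pow_le_pow_left₀ hδn0 hδn m) q6 (by positivity) (by positivity)
  refine ⟨fun h => ?_, fun h => ?_⟩
  · choose F hF hs using h
    obtain ⟨t, ht, _⟩ := hev (fun t => ((F t).totalDegree_le _ (hF t)).trans (hs t))
    have h1 := formula_blocks T t1 pts t2 w t3 (g t) ht (by rw [hcW]; exact hW2) (F t) (hF t)
    have h2 : Fintype.card (BI m p a) * p ^ (m + 1) ≤ 4 * s := by
      rw [← hcW]
      exact h1.trans (Nat.mul_le_mul_left _ (hs t))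
    have h3 : (Fintype.card (BI m p a) : ℝ) * (p : ℝ) ^ (m + 1) ≤ 4 * s := by exact_mod_cast h2
    have h4 : (δ * n) ^ m * ((n : ℝ) / (48 * (m + 1) ^ 2 * Real.log n)) * (δ * n) ^ (m + 1) ≤
        4 * s := by
      refine le_trans ?_ h3
      exact mul_le_mul hBlow (pow_le_pow_left₀ hδn0 hδn _) (by positivity) (by positivity)
    have h5 : c1 * ((n : ℝ) ^ (2 * (m + 1)) / Real.log n) =
        (δ * n) ^ m * ((n : ℝ) / (48 * (m + 1) ^ 2 * Real.log n)) * (δ * n) ^ (m + 1) / 4 := by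
      rw [hc1]
      field_simp
      ring
    have h6 : 0 ≤ (n : ℝ) ^ (2 * (m + 1)) / Real.log n := by positivity
    calc min c1 c2 * ((n : ℝ) ^ (2 * (m + 1)) / Real.log n) ≤
          c1 * ((n : ℝ) ^ (2 * (m + 1)) / Real.log n) :=
          mul_le_mul_of_nonneg_right (min_le_left _ _) h6
      _ ≤ s := by rw [h5]; linarith
  · choose N M hM hdet hs using h
    obtain ⟨t, ht, ht0⟩ := hev (fun t => by
      rw [← hdet t]
      exact (totalDegree_det_le (M t) (hM t)).trans (hs t))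
    set r := Nat.sqrt (p ^ (m + 1) - 2) with hr
    have hr1 : r ^ 2 ≤ p ^ (m + 1) - 2 := Nat.sqrt_le' _
    have hr2 : p ^ (m + 1) - 2 < (r + 1) ^ 2 := Nat.lt_succ_sqrt' _
    have h1 := det_blocks T t1 pts t2 w (g t) ht0 ht r (by rw [hcW]; omega) (M t) (hM t) (hdet t)
    have h2 : Fintype.card (BI m p a) * (r + 1) ≤ s := h1.trans (hs t)
    have h3 : (Fintype.card (BI m p a) : ℝ) * ((r : ℝ) + 1) ≤ s := by exact_mod_cast h2
    have h4 : Real.sqrt ((δ * n) ^ (m + 1)) / 2 ≤ (r : ℝ) + 1 := by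
      have h5 : p ^ (m + 1) ≤ (r + 1) ^ 2 + 1 := by omega
      have h6 : (p : ℝ) ^ (m + 1) ≤ ((r : ℝ) + 1) ^ 2 + 1 := by exact_mod_cast h5
      have h7 : (δ * n) ^ (m + 1) ≤ (2 * ((r : ℝ) + 1)) ^ 2 := by
        refine (pow_le_pow_left₀ hδn0 hδn _).trans (h6.trans ?_)
        have : (0 : ℝ) ≤ r := Nat.cast_nonneg _
        nlinarith
      have h8 := Real.sqrt_le_sqrt h7
      rw [Real.sqrt_sq (by positivity)] at h8
      linarith
    have h5 : (δ * n) ^ m * ((n : ℝ) / (48 * (m + 1) ^ 2 * Real.log n)) *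
        (Real.sqrt ((δ * n) ^ (m + 1)) / 2) ≤ s := by
      refine le_trans ?_ h3
      exact mul_le_mul hBlow h4 (by positivity) (by positivity)
    have h6 : c2 * ((n : ℝ) ^ (m + 1) * Real.sqrt ((n : ℝ) ^ (m + 1)) / Real.log n) =
        (δ * n) ^ m * ((n : ℝ) / (48 * (m + 1) ^ 2 * Real.log n)) *
        (Real.sqrt ((δ * n) ^ (m + 1)) / 2) := by
      rw [hc2, mul_pow δ (n : ℝ) (m + 1), Real.sqrt_mul (by positivity)]
      field_simp
      ring
    have h7 : 0 ≤ (n : ℝ) ^ (m + 1) * Real.sqrt ((n : ℝ) ^ (m + 1)) / Real.log n := by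
      positivity
    calc min c1 c2 * ((n : ℝ) ^ (m + 1) * Real.sqrt ((n : ℝ) ^ (m + 1)) / Real.log n) ≤
          c2 * ((n : ℝ) ^ (m + 1) * Real.sqrt ((n : ℝ) ^ (m + 1)) / Real.log n) :=
          mul_le_mul_of_nonneg_right (min_le_right _ _) h7
      _ ≤ s := by rw [h6]; exact h5

end H58C
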