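import Pool.Agent.Helper1x.CL.Main

/-!
# Weighted counting of independent sets of `k`-uniform hypergraphs

`wPoly n k` is the sum over all sets `S` of vertices of the product of the weights of the
`k`-element subsets of `S`.  We substitute affine forms for the weights so that a sum of
deformed elementary symmetric polynomials in disjoint sets of variables appears.
-/

set_option autoImplicit false

namespace H58C

open MvPolynomial Finset Filter Topology H1CL

/-- The `k`-element subsets of the set of the `n` vertices. -/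
abbrev KSet (n k : ℕ) : Type := {K : Finset (Fin n) // K.card = k}

/-- The sum over all sets `S` of the product of the weights of the `k`-element subsets. -/
noncomputable def wPoly (n k : ℕ) : MvPolynomial (KSet n k) ℂ :=
  ∑ S : Finset (Fin n), ∏ K : KSet n k, if K.1 ⊆ S then X K else 1

section

variable {n κ q m : ℕ} (e : (Fin (2 * q) ⊕ (Fin κ × Fin m)) ↪ Fin n)

/-- The variables. -/
abbrev Var (κ q m : ℕ) : Type := (Fin κ → Fin m) × Fin (2 * q)

/-- The set of the vertices selected by `g` and the vertices of `T`. -/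
def Tot (g : Fin κ → Fin m) (T : Finset (Fin (2 * q))) : Finset (Fin n) :=
  (T.disjSum (univ.map ⟨fun j => (j, g j), fun _ _ h => (Prod.mk.inj h).1⟩)).map e

/-- The block of the vertices of the first kind. -/
def Blk : Finset (Fin n) :=
  ((univ : Finset (Fin (2 * q))).disjSum (∅ : Finset (Fin κ × Fin m))).map e

/-- A set which contains a foreign vertex or two vertices of a block of the second kind. -/
def Bad (S : Finset (Fin n)) : Prop :=
  (∃ v ∈ S, v ∉ Set.range e) ∨
    ∃ (j : Fin κ) (x y : Fin m), x ≠ y ∧ e (Sum.inr (j, x)) ∈ S ∧ e (Sum.inr (j, y)) ∈ S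

open Classical in
/-- The weights. -/
noncomputable def wt (θ lam : ℂ) (K : KSet n (κ + 1)) : MvPolynomial (Var κ q m) ℂ :=
  (if Bad e K.1 then 0 else 1) * (if K.1 ⊆ Blk e then C θ else 1) *
    ∏ z : Var κ q m, if K.1 = Tot e z.1 {z.2} then C lam * X z else 1

theorem mem_Tot_inl {g : Fin κ → Fin m} {T : Finset (Fin (2 * q))} {i : Fin (2 * q)} :
    e (Sum.inl i) ∈ Tot e g T ↔ i ∈ T := by
  unfold Tot
  rw [Finset.mem_map' e]
  simp

theorem mem_Tot_inr {g : Fin κ → Fin m} {T : Finset (Fin (2 * q))} {j : Fin κ} {x : Fin m} :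
    e (Sum.inr (j, x)) ∈ Tot e g T ↔ g j = x := by
  unfold Tot
  rw [Finset.mem_map' e, Finset.inr_mem_disjSum, Finset.mem_map]
  constructor
  · rintro ⟨a, -, h⟩
    obtain ⟨rfl, h2⟩ := Prod.mk.inj h
    exact h2
  · intro h
    exact ⟨j, Finset.mem_univ _, Prod.ext rfl h⟩

theorem Tot_sub_range {g : Fin κ → Fin m} {T : Finset (Fin (2 * q))} {v : Fin n}
    (hv : v ∈ Tot e g T) : v ∈ Set.range e := by
  unfold Tot at hv
  obtain ⟨a, _, rfl⟩ := Finset.mem_map.1 hv
  exact ⟨a, rfl⟩

theorem mem_Blk {v : Fin n} : v ∈ Blk e ↔ ∃ i, e (Sum.inl i) = v := by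
  unfold Blk
  simp

theorem Tot_inj : Function.Injective
    (fun p : (Fin κ → Fin m) × Finset (Fin (2 * q)) => Tot e p.1 p.2) := by
  rintro ⟨g, T⟩ ⟨g', T'⟩ h
  simp only at h
  have h1 : T = T' := by
    ext i
    rw [← mem_Tot_inl e (g := g), h, mem_Tot_inl e]
  have h2 : g = g' := by
    funext j
    have := (mem_Tot_inr e (g := g) (T := T) (j := j) (x := g j)).2 rfl
    rw [h, mem_Tot_inr e] at this
    exact this.symm
  rw [h1, h2]

theorem card_Tot (g : Fin κ → Fin m) (T : Finset (Fin (2 * q))) :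
    (Tot e g T).card = T.card + κ := by
  unfold Tot
  rw [Finset.card_map, Finset.card_disjSum]
  simp

theorem Tot_subset {g g' : Fin κ → Fin m} {T T' : Finset (Fin (2 * q))} :
    Tot e g T ⊆ Tot e g' T' ↔ g = g' ∧ T ⊆ T' := by
  constructor
  · intro h
    refine ⟨?_, ?_⟩
    · funext j
      have h1 := h ((mem_Tot_inr e (g := g) (T := T) (j := j) (x := g j)).2 rfl)
      rw [mem_Tot_inr e] at h1
      exact h1.symm
    · intro i hi
      have h1 := h ((mem_Tot_inl e (g := g) (T := T) (i := i)).2 hi)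
      rwa [mem_Tot_inl e] at h1
  · rintro ⟨rfl, h⟩ v hv
    obtain ⟨a, rfl⟩ := Tot_sub_range e hv
    rcases a with i | ⟨j, x⟩
    · rw [mem_Tot_inl e] at hv ⊢
      exact h hv
    · rw [mem_Tot_inr e] at hv ⊢
      exact hv

theorem not_bad_Tot (g : Fin κ → Fin m) (T : Finset (Fin (2 * q))) : ¬ Bad e (Tot e g T) := by
  rintro (⟨v, hv, h⟩ | ⟨j, x, y, hxy, hx, hy⟩)
  · exact h (Tot_sub_range e hv)
  · rw [mem_Tot_inr e] at hx hy
    exact hxy (hx.symm.trans hy)

theorem Bad.mono {S S' : Finset (Fin n)} (h : S ⊆ S') (hS : Bad e S) : Bad e S' := by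
  rcases hS with ⟨v, hv, h'⟩ | ⟨j, x, y, hxy, hx, hy⟩
  · exact Or.inl ⟨v, h hv, h'⟩
  · exact Or.inr ⟨j, x, y, hxy, h hx, h hy⟩

/-- A good set which contains a selected set is of the form `Tot`. -/
theorem exists_Tot {S : Finset (Fin n)} (hS : ¬ Bad e S) {g : Fin κ → Fin m}
    (h : ∀ j, e (Sum.inr (j, g j)) ∈ S) : ∃ T, S = Tot e g T := by
  classical
  refine ⟨univ.filter fun i => e (Sum.inl i) ∈ S, ?_⟩
  ext v
  constructor
  · intro hv
    have hr : v ∈ Set.range e := by
      by_contra hcon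
      exact hS (Or.inl ⟨v, hv, hcon⟩)
    obtain ⟨a, rfl⟩ := hr
    rcases a with i | ⟨j, x⟩
    · rw [mem_Tot_inl e]
      simpa using hv
    · rw [mem_Tot_inr e]
      by_contra hcon
      exact hS (Or.inr ⟨j, g j, x, hcon, h j, hv⟩)
  · intro hv
    obtain ⟨a, rfl⟩ := Tot_sub_range e hv
    rcases a with i | ⟨j, x⟩
    · rw [mem_Tot_inl e] at hv
      simpa using hv
    · rw [mem_Tot_inr e] at hv
      rw [← hv]
      exact h j

/-- The contribution of a set of vertices. -/
noncomputable def val (θ lam : ℂ) (S : Finset (Fin n)) : MvPolynomial (Var κ q m) ℂ :=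
  ∏ K : KSet n (κ + 1), if K.1 ⊆ S then wt e θ lam K else 1

theorem val_bad (hκ : 1 ≤ κ) (θ lam : ℂ) {S : Finset (Fin n)} (hS : Bad e S)
    (hc : κ + 1 ≤ S.card) : val e θ lam S = 0 := by
  classical
  have h : ∃ s : Finset (Fin n), s ⊆ S ∧ s.card ≤ κ + 1 ∧ Bad e s := by
    rcases hS with ⟨v, hv, h'⟩ | ⟨j, x, y, hxy, hx, hy⟩
    · refine ⟨{v}, by simpa using hv, by rw [Finset.card_singleton]; omega,
        Or.inl ⟨v, by simp, h'⟩⟩
    · refine ⟨{e (Sum.inr (j, x)), e (Sum.inr (j, y))}, ?_, ?_,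
        Or.inr ⟨j, x, y, hxy, by simp, by simp⟩⟩
      · intro v hv
        rw [Finset.mem_insert, Finset.mem_singleton] at hv
        rcases hv with rfl | rfl
        · exact hx
        · exact hy
      · exact (Finset.card_le_two).trans (by omega)
  obtain ⟨s, hs1, hs2, hs3⟩ := h
  obtain ⟨K, hK1, hK2, hK3⟩ := Finset.exists_subsuperset_card_eq hs1 hs2 hc
  unfold val
  refine Finset.prod_eq_zero (Finset.mem_univ (⟨K, hK3⟩ : KSet n (κ + 1))) ?_
  rw [if_pos hK2]
  unfold wt
  rw [if_pos (hs3.mono e hK1), zero_mul, zero_mul]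

theorem val_small (θ lam : ℂ) {S : Finset (Fin n)} (hc : S.card < κ + 1) :
    val e θ lam S = 1 := by
  unfold val
  refine Finset.prod_eq_one fun K _ => ?_
  rw [if_neg]
  intro h
  have := Finset.card_le_card h
  rw [K.2] at this
  omega

open Classical in
theorem val_good (θ lam : ℂ) {S : Finset (Fin n)} (hS : ¬ Bad e S) :
    val e θ lam S = C (θ ^ ((S ∩ Blk e).card.choose (κ + 1))) *
      ∏ z : Var κ q m, if Tot e z.1 {z.2} ⊆ S then C lam * X z else 1 := by
  have h1 : ∀ K : KSet n (κ + 1), (if K.1 ⊆ S then wt e θ lam K else 1) =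
      (if K.1 ⊆ S ∧ K.1 ⊆ Blk e then C θ else 1) *
        ∏ z : Var κ q m, (if K.1 ⊆ S ∧ K.1 = Tot e z.1 {z.2} then C lam * X z else 1) := by
    intro K
    by_cases hK : K.1 ⊆ S
    · rw [if_pos hK]
      unfold wt
      rw [if_neg (fun h => hS (h.mono e hK)), one_mul]
      simp only [hK, true_and]
    · rw [if_neg hK]
      simp only [hK, false_and, if_false, Finset.prod_const_one, mul_one]
  unfold val
  rw [Finset.prod_congr rfl fun K _ => h1 K, Finset.prod_mul_distrib, Finset.prod_comm]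
  congr 1
  · rw [Finset.prod_ite, Finset.prod_const_one, mul_one, Finset.prod_const, map_pow]
    congr 1
    rw [← Finset.card_powersetCard, ← Finset.card_map (Function.Embedding.subtype _)]
    congr 1
    ext K
    simp only [Finset.mem_map, Finset.mem_filter, Finset.mem_univ, true_and,
      Function.Embedding.coe_subtype, Finset.mem_powersetCard, Finset.subset_inter_iff]
    constructor
    · rintro ⟨a, ha, rfl⟩
      exact ⟨ha, a.2⟩
    · rintro ⟨ha, hb⟩
      exact ⟨⟨K, hb⟩, ha, rfl⟩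
  · refine Finset.prod_congr rfl fun z _ => ?_
    have hcard : (Tot e z.1 {z.2}).card = κ + 1 := by
      rw [card_Tot, Finset.card_singleton, add_comm]
    rw [Finset.prod_eq_single (⟨Tot e z.1 {z.2}, hcard⟩ : KSet n (κ + 1))]
    · simp
    · intro K _ hK
      rw [if_neg]
      rintro ⟨-, h⟩
      exact hK (Subtype.ext h)
    · intro h
      exact absurd (Finset.mem_univ _) h

theorem inter_Blk (g : Fin κ → Fin m) (T : Finset (Fin (2 * q))) :
    (Tot e g T ∩ Blk e).card = T.card := by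
  classical
  have : Tot e g T ∩ Blk e = (T.map (⟨Sum.inl, Sum.inl_injective⟩ :
      Fin (2 * q) ↪ Fin (2 * q) ⊕ (Fin κ × Fin m))).map e := by
    ext v
    rw [Finset.mem_inter, mem_Blk]
    constructor
    · rintro ⟨h1, i, rfl⟩
      rw [mem_Tot_inl e] at h1
      simpa using h1
    · intro h
      simp only [Finset.mem_map, Function.Embedding.coeFn_mk, exists_exists_and_eq_and] at h
      obtain ⟨i, hi, rfl⟩ := h
      exact ⟨(mem_Tot_inl e).2 hi, i, rfl⟩
  rw [this, Finset.card_map, Finset.card_map]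

/-- The variables of one group. -/
def gemb (g : Fin κ → Fin m) : Fin (2 * q) ↪ Var κ q m where
  toFun i := (g, i)
  inj' _ _ h := (Prod.mk.inj h).2

theorem val_Tot (θ lam : ℂ) (g : Fin κ → Fin m) (T : Finset (Fin (2 * q))) :
    val e θ lam (Tot e g T) = C (θ ^ (T.card.choose (κ + 1)) * lam ^ T.card) *
      ∏ i ∈ T, X (g, i) := by
  classical
  rw [val_good e θ lam (not_bad_Tot e g T), inter_Blk, map_mul, mul_assoc]
  congr 1
  have h : ∀ z : Var κ q m, (if Tot e z.1 {z.2} ⊆ Tot e g T then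
      (C lam * X z : MvPolynomial (Var κ q m) ℂ) else 1) =
      if z ∈ T.map (gemb g) then C lam * X z else 1 := by
    rintro ⟨g', i⟩
    refine if_congr ?_ rfl rfl
    rw [Tot_subset, Finset.singleton_subset_iff, Finset.mem_map]
    constructor
    · rintro ⟨h1, h⟩
      exact ⟨i, h, Prod.ext h1.symm rfl⟩
    · rintro ⟨j, h, h2⟩
      obtain ⟨h3, h4⟩ := Prod.mk.inj h2
      exact ⟨h3.symm, h4 ▸ h⟩
  rw [Finset.prod_congr rfl fun z _ => h z, Finset.prod_ite_mem, Finset.univ_inter,
    Finset.prod_map, Finset.prod_mul_distrib, Finset.prod_const, map_pow]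
  rfl

/-- The other sets contribute constants. -/
theorem val_const (hκ : 1 ≤ κ) (θ lam : ℂ) {S : Finset (Fin n)}
    (hS : ∀ g T, S ≠ Tot e g T) : ∃ c : ℂ, val e θ lam S = C c := by
  classical
  by_cases hc : S.card < κ + 1
  · exact ⟨1, by rw [val_small e θ lam hc, map_one]⟩
  by_cases hb : Bad e S
  · exact ⟨0, by rw [val_bad e hκ θ lam hb (by omega), map_zero]⟩
  refine ⟨θ ^ ((S ∩ Blk e).card.choose (κ + 1)), ?_⟩
  rw [val_good e θ lam hb]
  rw [Finset.prod_eq_one, mul_one]
  rintro ⟨g, i⟩ _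
  rw [if_neg]
  intro h
  obtain ⟨T, hT⟩ := exists_Tot e hb (g := g)
    (fun j => h ((mem_Tot_inr e).2 rfl))
  exact hS g T hT

/-- The substituted polynomial. -/
theorem wPoly_subst (hκ : 1 ≤ κ) (θ lam : ℂ) : ∃ c : ℂ,
    aeval (wt e θ lam) (wPoly n (κ + 1)) = C c +
      ∑ p : (Fin κ → Fin m) × Finset (Fin (2 * q)),
        C (θ ^ (p.2.card.choose (κ + 1)) * lam ^ p.2.card) * ∏ i ∈ p.2, X (p.1, i) := by
  classical
  have h0 : aeval (wt e θ lam) (wPoly n (κ + 1)) = ∑ S : Finset (Fin n), val e θ lam S := by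
    unfold wPoly val
    rw [map_sum]
    refine Finset.sum_congr rfl fun S _ => ?_
    rw [map_prod]
    refine Finset.prod_congr rfl fun K _ => ?_
    split_ifs
    · rw [aeval_X]
    · rw [map_one]
  set I : Finset (Finset (Fin n)) := univ.image
    (fun p : (Fin κ → Fin m) × Finset (Fin (2 * q)) => Tot e p.1 p.2) with hI
  have h1 : ∀ S ∈ Iᶜ, ∃ c : ℂ, val e θ lam S = C c := by
    intro S hS
    refine val_const e hκ θ lam fun g T h => ?_
    rw [Finset.mem_compl, hI, Finset.mem_image] at hS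
    exact hS ⟨(g, T), Finset.mem_univ _, h.symm⟩
  choose! c hc using h1
  refine ⟨∑ S ∈ Iᶜ, c S, ?_⟩
  rw [h0, ← Finset.sum_compl_add_sum I, Finset.sum_congr rfl hc, map_sum]
  congr 1
  rw [hI, Finset.sum_image (fun x _ y _ h => Tot_inj e h)]
  exact Finset.sum_congr rfl fun p _ => val_Tot e θ lam p.1 p.2

theorem isAff_wt (θ lam : ℂ) (K : KSet n (κ + 1)) : IsAff (wt e θ lam K) := by
  classical
  have hsm : ∀ (c : ℂ) (p : MvPolynomial (Var κ q m) ℂ), IsAff p → IsAff (C c * p) := by
    rintro c p ⟨a, L, rfl⟩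
    refine ⟨c * a, fun v => c * L v, ?_⟩
    rw [mul_add, Finset.mul_sum, map_mul]
    congr 1
    refine Finset.sum_congr rfl fun v _ => ?_
    rw [map_mul, mul_assoc]
  have hprod : IsAff (∏ z : Var κ q m, if K.1 = Tot e z.1 {z.2} then
      (C lam * X z : MvPolynomial (Var κ q m) ℂ) else 1) := by
    by_cases h : ∃ z : Var κ q m, K.1 = Tot e z.1 {z.2}
    · obtain ⟨z, hz⟩ := h
      rw [Finset.prod_eq_single z]
      · rw [if_pos hz]
        exact isAff_C_mul_X _ _
      · intro z' _ hz'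
        rw [if_neg]
        intro h'
        have := Tot_inj e (a₁ := (z.1, {z.2})) (a₂ := (z'.1, {z'.2})) (hz.symm.trans h')
        rw [Prod.mk.injEq, Finset.singleton_inj] at this
        exact hz' (Prod.ext this.1.symm this.2.symm)
      · intro h'
        exact absurd (Finset.mem_univ _) h'
    · rw [Finset.prod_eq_one]
      · rw [← C_1]
        exact isAff_C _
      · intro z _
        rw [if_neg]
        intro h'
        exact h ⟨z, h'⟩
  unfold wt
  split_ifs
  · rw [zero_mul, zero_mul]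
    exact isAff_zero
  · rw [zero_mul, zero_mul]
    exact isAff_zero
  · rw [one_mul]
    exact hsm _ _ hprod
  · rw [one_mul, one_mul]
    exact hprod

end

end H58C
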