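import Pool.Agent.Helper1x.FS.Final

/-!
# Disjoint blocks of variables: formulas and determinantal representations, also for limits
-/

namespace H58C

open MvPolynomial Filter Topology H1FS

section blocks

set_option linter.unusedSectionVars false

variable {σ : Type} [Fintype σ] [DecidableEq σ] {Bk L W Q : Type} [Fintype Bk] [Fintype L]
  [Fintype W] [DecidableEq W] [Fintype Q] [DecidableEq Q] [Nonempty Q]

lemma sum_blocks_le (T : Bk × L → σ) (hT : Function.Injective T) (f : σ → ℕ) :
    ∑ b : Bk, ∑ l : L, f (T (b, l)) ≤ ∑ v, f v := by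
  rw [← Fintype.sum_prod_type (f := fun p : Bk × L => f (T p))]
  have h := Finset.sum_map (Finset.univ : Finset (Bk × L)) ⟨T, hT⟩ f
  simp only [Function.Embedding.coeFn_mk] at h
  rw [← h]
  exact Finset.sum_le_sum_of_subset (Finset.subset_univ _)

theorem formula_blocks {K : Type*} [Field K] (T : Bk × L → σ) (hT : Function.Injective T)
    (pts : Bk → Q → σ → K)
    (hpts : ∀ b v, (∀ l, v ≠ T (b, l)) → ∀ x x', pts b x v = pts b x' v)
    (w : Bk → W → σ) (hw : ∀ b i l, w b i ≠ T (b, l)) (g : MvPolynomial σ K)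
    (hli : ∀ b, LinearIndependent K (fun (i : W) (x : Q) => eval (pts b x) (pderiv (w b i) g)))
    (hW : 2 ≤ Fintype.card W) (F : RFml σ K) (hF : F.val = algebraMap _ _ g) :
    Fintype.card Bk * Fintype.card W ≤ 4 * F.size := by
  have h1 : ∀ b, Fintype.card W ≤ 4 * ∑ l, F.occ (T (b, l)) := by
    intro b
    have hinj : Function.Injective (fun l => T (b, l)) := fun l l' h =>
      (Prod.mk.inj (hT h)).2
    have h2 := card_le_occ_r (pts b) (Finset.univ.map ⟨fun l => T (b, l), hinj⟩) (by
      intro v hv x x'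
      refine hpts b v (fun l h => hv ?_) x x'
      rw [Finset.mem_map]
      exact ⟨l, Finset.mem_univ _, h.symm⟩) F g hF (w b) (by
      intro i hi
      rw [Finset.mem_map] at hi
      obtain ⟨l, _, h⟩ := hi
      exact hw b i l h.symm) (hli b) hW
    rw [Finset.sum_map] at h2
    exact h2
  have h2 := Finset.sum_le_sum (fun b (_ : b ∈ (Finset.univ : Finset Bk)) => h1 b)
  rw [Finset.sum_const, Finset.card_univ, smul_eq_mul, ← Finset.mul_sum] at h2
  refine h2.trans (Nat.mul_le_mul_left 4 ?_)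
  rw [← F.sum_occ]
  exact sum_blocks_le T hT F.occ

theorem det_blocks {K : Type*} [Field K] (T : Bk × L → σ) (hT : Function.Injective T)
    (pts : Bk → Q → σ → K)
    (hpts : ∀ b v, (∀ l, v ≠ T (b, l)) → ∀ x x', pts b x v = pts b x' v)
    (w : Bk → W → σ) (g : MvPolynomial σ K) (hg : g ≠ 0)
    (hli : ∀ b, LinearIndependent K (fun (i : W) (x : Q) => eval (pts b x) (pderiv (w b i) g)))
    (r : ℕ) (hr : r ^ 2 + 1 < Fintype.card W) {m : ℕ}
    (M : Matrix (Fin m) (Fin m) (MvPolynomial σ K))
    (hM : ∀ i j, (M i j).totalDegree ≤ 1) (hdet : M.det = g) :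
    Fintype.card Bk * (r + 1) ≤ ∑ i, ∑ j, (M i j).vars.card := by
  classical
  let A : Fin m → Fin m → σ → K := fun i j v => coeff (Finsupp.single v 1) (M i j)
  let c : Fin m → Fin m → K := fun i j => coeff 0 (M i j)
  have hA : affM c A = M := by
    ext1 i j
    exact (affine_eq _ (hM i j)).symm
  let E : σ → Finset (Fin m × Fin m) := fun v =>
    Finset.univ.filter (fun ij : Fin m × Fin m => v ∈ (M ij.1 ij.2).vars)
  have h1 : ∀ b, r + 1 ≤ ∑ l, (E (T (b, l))).card := by
    intro b
    have hinj : Function.Injective (fun l => T (b, l)) := fun l l' h =>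
      (Prod.mk.inj (hT h)).2
    have h2 := card_le_det (pts b) (Finset.univ.map ⟨fun l => T (b, l), hinj⟩) (by
      intro v hv x x'
      refine hpts b v (fun l h => hv ?_) x x'
      rw [Finset.mem_map]
      exact ⟨l, Finset.mem_univ _, h.symm⟩) c A (by rw [hA, hdet]; exact hg) (w b)
      (by rw [hA, hdet]; exact hli b) (Finset.univ.biUnion (fun l => E (T (b, l)))) (by
      intro i j hij v hv
      rw [Finset.mem_map] at hv
      obtain ⟨l, _, rfl⟩ := hv
      refine coeff_single_eq_zero _ _ (fun h => hij ?_)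
      rw [Finset.mem_biUnion]
      exact ⟨l, Finset.mem_univ _, Finset.mem_filter.2 ⟨Finset.mem_univ _, h⟩⟩)
    have h3 : (Finset.univ.biUnion (fun l => E (T (b, l)))).card ≤
        ∑ l, (E (T (b, l))).card := Finset.card_biUnion_le
    refine le_trans ?_ h3
    by_contra hcon
    push Not at hcon
    have h4 : (Finset.univ.biUnion (fun l => E (T (b, l)))).card ^ 2 ≤ r ^ 2 :=
      Nat.pow_le_pow_left (by omega) 2
    omega
  have h2 := Finset.sum_le_sum (fun b (_ : b ∈ (Finset.univ : Finset Bk)) => h1 b)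
  rw [Finset.sum_const, Finset.card_univ, smul_eq_mul] at h2
  refine h2.trans ?_
  refine (sum_blocks_le T hT (fun v => (E v).card)).trans ?_
  simp only [E, Finset.card_filter]
  rw [Finset.sum_comm, Fintype.sum_prod_type]
  refine Finset.sum_le_sum (fun i _ => Finset.sum_le_sum (fun j _ => ?_))
  rw [Finset.sum_boole]
  simp

theorem li_eventually (pts : Bk → Q → σ → ℂ) (w : Bk → W → σ) (f : MvPolynomial σ ℂ)
    (hli : ∀ b, LinearIndependent ℂ (fun (i : W) (x : Q) => eval (pts b x) (pderiv (w b i) f)))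
    (D : ℕ) (g : ℕ → MvPolynomial σ ℂ) (hD : ∀ t, (g t).totalDegree ≤ D)
    (hlim : ∀ d, Tendsto (fun t => coeff d (g t)) atTop (𝓝 (coeff d f))) :
    ∀ᶠ t in atTop, ∀ b, LinearIndependent ℂ
      (fun (i : W) (x : Q) => eval (pts b x) (pderiv (w b i) (g t))) := by
  rw [Filter.eventually_all]
  intro b
  let Λ : W → Q → MvPolynomial σ ℂ →ₗ[ℂ] ℂ := fun i x =>
    (aeval (pts b x) : MvPolynomial _ ℂ →ₐ[ℂ] ℂ).toLinearMap ∘ₗ
      (pderiv (w b i) : Derivation ℂ (MvPolynomial _ ℂ) (MvPolynomial _ ℂ)).toLinearMap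
  have hΛ : ∀ (p : MvPolynomial σ ℂ), (fun (i : W) (x : Q) =>
      eval (pts b x) (pderiv (w b i) p)) = fun i x => Λ i x p := by
    intro p
    funext i x
    simp only [Λ, LinearMap.comp_apply, AlgHom.toLinearMap_apply]
    rfl
  simp only [hΛ]
  have hf := hli b
  rw [hΛ] at hf
  obtain ⟨G, hG⟩ := exists_left_inv (Matrix.of fun i x => Λ i x f) hf
  have hA : Tendsto (fun t => (Matrix.of fun i x => Λ i x (g t) : Matrix W Q ℂ)) atTop
      (𝓝 (Matrix.of fun i x => Λ i x f)) := by
    refine tendsto_pi_nhds.2 (fun i => tendsto_pi_nhds.2 (fun x => ?_))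
    exact tendsto_linear (Λ i x) D g f hD hlim
  have hcont : Continuous (fun A : Matrix W Q ℂ => (G * A.transpose).det) :=
    (continuous_const.matrix_mul continuous_id.matrix_transpose).matrix_det
  have hdet := (hcont.tendsto _).comp hA
  simp only [hG, Matrix.det_one] at hdet
  have hne : ∀ᶠ t in atTop, (G * (Matrix.of fun i x => Λ i x (g t) :
      Matrix W Q ℂ).transpose).det ≠ 0 :=
    hdet.eventually_ne one_ne_zero
  filter_upwards [hne] with t ht
  exact li_of_det (Matrix.of fun i x => Λ i x (g t)) G ht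

end blocks

end H58C
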