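import Pool.Agent.Helper58C.FormA

/-!
# A gadget that makes the derivatives of a weighted count linearly independent
-/

namespace H58C

open MvPolynomial

section gadget

set_option linter.unusedSectionVars false

variable {σ A : Type} [Fintype σ] [DecidableEq σ] [Fintype A]

open Classical in
/-- the multilinear polynomial of a family of predicates -/
noncomputable def extP (holds : σ → A → Prop) : MvPolynomial σ ℂ :=
  ∑ a : A, ∏ C : σ, if holds C a then 1 else 1 - X C

open Classical in
lemma pderiv_prod_zero (holds : σ → A → Prop) (v : σ) (a : A) (s : Finset σ) (hv : v ∉ s) :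
    pderiv v (∏ C ∈ s, (if holds C a then 1 else 1 - X C : MvPolynomial σ ℂ)) = 0 := by
  induction s using Finset.induction_on with
  | empty => simp
  | insert C s hC ih =>
    have h1 : v ∉ s := fun h => hv (Finset.mem_insert_of_mem h)
    have h2 : v ≠ C := fun h => hv (h ▸ Finset.mem_insert_self _ _)
    have h3 : pderiv v (if holds C a then 1 else 1 - X C : MvPolynomial σ ℂ) = 0 := by
      split_ifs
      · simp
      · rw [map_sub, pderiv_X_of_ne h2.symm]
        simp
    rw [Finset.prod_insert hC, Derivation.leibniz, h3, ih h1]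
    simp

open Classical in
lemma eval_pderiv_extP (holds : σ → A → Prop) (v : σ) (x : σ → ℂ) :
    eval x (pderiv v (extP holds)) = ∑ a : A, if holds v a then 0 else
      -∏ C ∈ Finset.univ.erase v, (if holds C a then 1 else 1 - x C) := by
  unfold extP
  rw [map_sum, map_sum]
  refine Finset.sum_congr rfl fun a _ => ?_
  rw [← Finset.mul_prod_erase Finset.univ _ (Finset.mem_univ v), Derivation.leibniz,
    pderiv_prod_zero holds v a _ (Finset.notMem_erase _ _)]
  split_ifs with h
  · simp
  · have h1 : pderiv v (1 - X v : MvPolynomial σ ℂ) = -1 := by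
      rw [map_sub, pderiv_X_self, Derivation.map_one_eq_zero, zero_sub]
    rw [h1, smul_zero, zero_add, smul_eq_mul, mul_neg, mul_one, map_neg, map_prod]
    congr 1
    refine Finset.prod_congr rfl fun C _ => ?_
    split_ifs <;> simp

variable {W L : Type} [Fintype W] [DecidableEq W] [Fintype L] [DecidableEq L]

open Classical in
/-- the evaluation points -/
noncomputable def ptG (Φ : Finset σ) (T : L → σ) (U : Finset L) (C : σ) : ℂ :=
  if C ∈ Φ then 1 else if ∃ l, l ∉ U ∧ T l = C then 1 else 0

lemma ptG_outside (Φ : Finset σ) (T : L → σ) (C : σ) (h : ∀ l, C ≠ T l) (U U' : Finset L) :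
    ptG Φ T U C = ptG Φ T U' C := by
  unfold ptG
  have h1 : ∀ V : Finset L, ¬ ∃ l, l ∉ V ∧ T l = C := by
    rintro V ⟨l, _, hl⟩
    exact h l hl.symm
  rw [if_neg (h1 U), if_neg (h1 U')]

open Classical in
/-- the set of the violated members of the block -/
noncomputable def pat (holds : σ → A → Prop) (T : L → σ) (a : A) : Finset L :=
  Finset.univ.filter (fun l => ¬ holds (T l) a)

open Classical in
/-- assignments with a given pattern -/
noncomputable def cntG (holds : σ → A → Prop) (Φ : Finset σ) (T : L → σ) (v : σ)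
    (S : Finset L) : ℕ :=
  (Finset.univ.filter (fun a : A => ¬ holds v a ∧ (∀ C ∈ Φ, holds C a) ∧
    pat holds T a = S)).card

lemma eval_gadget (holds : σ → A → Prop) (Φ : Finset σ) (T : L → σ) (v : σ) (hv : v ∉ Φ)
    (hTΦ : ∀ l, T l ∉ Φ) (hvT : ∀ l, v ≠ T l) (U : Finset L) :
    eval (ptG Φ T U) (pderiv v (extP holds)) =
      -∑ S ∈ U.powerset, (cntG holds Φ T v S : ℂ) := by
  classical
  have h1 : ∀ a, ¬ holds v a → (∏ C ∈ Finset.univ.erase v,
      (if holds C a then (1 : ℂ) else 1 - ptG Φ T U C)) =
      if (∀ C ∈ Φ, holds C a) ∧ pat holds T a ⊆ U then 1 else 0 := by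
    intro a _
    split_ifs with h
    · refine Finset.prod_eq_one fun C hC => ?_
      split_ifs with h2
      · rfl
      · have h3 : C ∉ Φ := fun h4 => h2 (h.1 C h4)
        have h4 : ¬ ∃ l, l ∉ U ∧ T l = C := by
          rintro ⟨l, hl, rfl⟩
          exact hl (h.2 (Finset.mem_filter.2 ⟨Finset.mem_univ _, h2⟩))
        unfold ptG
        rw [if_neg h3, if_neg h4, sub_zero]
    · rw [not_and_or] at h
      rcases h with h | h
      · push Not at h
        obtain ⟨C, hC, h2⟩ := h
        refine Finset.prod_eq_zero (i := C) ?_ ?_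
        · rw [Finset.mem_erase]
          exact ⟨fun h3 => hv (h3 ▸ hC), Finset.mem_univ _⟩
        · rw [if_neg h2]
          unfold ptG
          rw [if_pos hC, sub_self]
      · rw [Finset.not_subset] at h
        obtain ⟨l, hl, hlU⟩ := h
        have h2 : ¬ holds (T l) a := (Finset.mem_filter.1 hl).2
        refine Finset.prod_eq_zero (i := T l) ?_ ?_
        · rw [Finset.mem_erase]
          exact ⟨fun h3 => hvT l h3.symm, Finset.mem_univ _⟩
        · rw [if_neg h2]
          unfold ptG
          rw [if_neg (hTΦ l), if_pos ⟨l, hlU, rfl⟩, sub_self]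
  rw [eval_pderiv_extP]
  have h2 : ∀ a : A, (if holds v a then (0 : ℂ) else
      -∏ C ∈ Finset.univ.erase v, (if holds C a then 1 else 1 - ptG Φ T U C)) =
      -∑ S ∈ U.powerset, if (¬ holds v a ∧ (∀ C ∈ Φ, holds C a) ∧ pat holds T a = S)
        then (1 : ℂ) else 0 := by
    intro a
    by_cases h : holds v a
    · rw [if_pos h]
      simp [h]
    · rw [if_neg h, h1 a h]
      congr 1
      by_cases h3 : (∀ C ∈ Φ, holds C a) ∧ pat holds T a ⊆ U
      · rw [if_pos h3, Finset.sum_eq_single (pat holds T a)]
        · rw [if_pos ⟨h, h3.1, rfl⟩]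
        · intro S _ hS
          rw [if_neg]
          rintro ⟨_, _, h4⟩
          exact hS h4.symm
        · intro h4
          exact absurd (Finset.mem_powerset.2 h3.2) h4
      · rw [if_neg h3]
        symm
        refine Finset.sum_eq_zero fun S hS => ?_
        rw [if_neg]
        rintro ⟨_, h4, h5⟩
        exact h3 ⟨h4, h5 ▸ Finset.mem_powerset.1 hS⟩
  rw [Finset.sum_congr rfl fun a _ => h2 a, Finset.sum_neg_distrib, Finset.sum_comm]
  congr 1
  refine Finset.sum_congr rfl fun S _ => ?_
  unfold cntG
  rw [Finset.sum_boole]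

lemma moebius {M : Type*} [AddCommGroup M] (g : Finset L → M)
    (h : ∀ U : Finset L, ∑ S ∈ U.powerset, g S = 0) (U : Finset L) : g U = 0 := by
  induction U using Finset.strongInduction with
  | H U ih =>
    have h1 := h U
    rw [← Finset.add_sum_erase _ _ (Finset.mem_powerset.2 (Finset.Subset.refl U))] at h1
    rw [Finset.sum_eq_zero, add_zero] at h1
    · exact h1
    · intro S hS
      rw [Finset.mem_erase, Finset.mem_powerset] at hS
      exact ih S (Finset.ssubset_iff_subset_ne.2 ⟨hS.2, hS.1⟩)

theorem gadget_li (holds : σ → A → Prop) (Φ : Finset σ) (T : L → σ) (w : W → σ)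
    (hwΦ : ∀ i, w i ∉ Φ) (hTΦ : ∀ l, T l ∉ Φ) (hwT : ∀ i l, w i ≠ T l) (S : W → Finset L)
    (h1 : ∀ i, ∃ a, ¬ holds (w i) a ∧ (∀ C ∈ Φ, holds C a) ∧
      ∀ l, ¬ holds (T l) a ↔ l ∈ S i)
    (h2 : ∀ i i' a, ¬ holds (w i') a → (∀ C ∈ Φ, holds C a) →
      (∀ l, ¬ holds (T l) a ↔ l ∈ S i) → i' = i) :
    LinearIndependent ℂ (fun (i : W) (U : Finset L) =>
      eval (ptG Φ T U) (pderiv (w i) (extP holds))) := by
  classical
  rw [Fintype.linearIndependent_iff]
  intro α hα i
  have h3 : ∀ U : Finset L, ∑ S' ∈ U.powerset, ∑ i, α i * (cntG holds Φ T (w i) S' : ℂ) = 0 := by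
    intro U
    have h4 := congrFun hα U
    simp only [Finset.sum_apply, Pi.smul_apply, smul_eq_mul, Pi.zero_apply] at h4
    rw [Finset.sum_comm]
    rw [← neg_eq_zero, ← h4, ← Finset.sum_neg_distrib]
    refine Finset.sum_congr rfl fun i _ => ?_
    rw [eval_gadget holds Φ T (w i) (hwΦ i) hTΦ (hwT i) U, mul_neg, Finset.mul_sum]
  have h4 := moebius _ h3 (S i)
  rw [Finset.sum_eq_single i] at h4
  · rcases mul_eq_zero.1 h4 with h5 | h5
    · exact h5
    · exfalso
      obtain ⟨a, ha1, ha2, ha3⟩ := h1 i
      have h6 : cntG holds Φ T (w i) (S i) ≠ 0 := by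
        unfold cntG
        rw [Finset.card_ne_zero]
        refine ⟨a, ?_⟩
        rw [Finset.mem_filter]
        refine ⟨Finset.mem_univ _, ha1, ha2, ?_⟩
        ext l
        unfold pat
        rw [Finset.mem_filter]
        simp only [Finset.mem_univ, true_and]
        exact ha3 l
      exact h6 (by exact_mod_cast h5)
  · intro i' _ hi'
    have h6 : cntG holds Φ T (w i') (S i) = 0 := by
      unfold cntG
      rw [Finset.card_eq_zero, Finset.filter_eq_empty_iff]
      rintro a _ ⟨ha1, ha2, ha3⟩
      refine hi' (h2 i i' a ha1 ha2 fun l => ?_)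
      rw [← ha3]
      unfold pat
      rw [Finset.mem_filter]
      simp only [Finset.mem_univ, true_and]
    rw [h6]
    simp
  · intro h
    exact absurd (Finset.mem_univ _) h

end gadget

end H58C
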