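import Pool.Agent.Helper58C.FormB
import Pool.Agent.Helper58C.Core

/-!
# Blocks of monotone clauses
-/

namespace H58C

open MvPolynomial

section family

set_option linter.unusedSectionVars false

variable {m p a n : ℕ} [NeZero p]

/-- the indices of the members of a block -/
abbrev LI' (m a : ℕ) : Type := Fin (m + 1) × Fin a × Bool

/-- the indices of the blocks -/
abbrev BI (m p a : ℕ) : Type := (Fin m → Fin p) × Fin (p / (2 * (m + 1) * a))

/-- the broken diagonal through `y` in the direction `u` -/
def xx (u : Fin m → Fin p) (y : Fin p) : Fin (m + 1) → Fin p := Fin.cons y (fun i => y + u i)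

lemma xx_inj (u u' : Fin m → Fin p) (y y' : Fin p) (h : xx u y = xx u' y') :
    u = u' ∧ y = y' := by
  have h0 : y = y' := by
    have := congrFun h 0
    simpa [xx] using this
  subst h0
  refine ⟨?_, rfl⟩
  funext i
  have := congrFun h i.succ
  simp only [xx, Fin.cons_succ] at this
  exact add_left_cancel this

lemma xx_disj (u : Fin m → Fin p) (y y' : Fin p) (i : Fin (m + 1)) (h : xx u y i = xx u y' i) :
    y = y' := by
  refine Fin.cases ?_ (fun i => ?_) i h
  · intro h
    simpa [xx] using h
  · intro h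
    simp only [xx, Fin.cons_succ] at h
    exact add_right_cancel h

/-- the set of variables of a point of the grid -/
def gset (e : Bool × Fin (m + 1) × Fin p ↪ Fin n) (β : Bool) (x : Fin (m + 1) → Fin p) :
    Finset (Fin n) :=
  Finset.univ.image (fun i => e (β, i, x i))

lemma mem_gset (e : Bool × Fin (m + 1) × Fin p ↪ Fin n) (β : Bool) (x : Fin (m + 1) → Fin p)
    (v : Bool × Fin (m + 1) × Fin p) : e v ∈ gset e β x ↔ v.1 = β ∧ v.2.2 = x v.2.1 := by
  unfold gset
  rw [Finset.mem_image]
  constructor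
  · rintro ⟨i, _, h⟩
    have := e.injective h
    rw [← this]
    exact ⟨rfl, rfl⟩
  · rintro ⟨h1, h2⟩
    refine ⟨v.2.1, Finset.mem_univ _, ?_⟩
    congr 1
    rw [← h1, ← h2]

lemma gset_card (e : Bool × Fin (m + 1) × Fin p ↪ Fin n) (β : Bool)
    (x : Fin (m + 1) → Fin p) : (gset e β x).card = m + 1 := by
  unfold gset
  rw [Finset.card_image_of_injective, Finset.card_univ, Fintype.card_fin]
  intro i i' h
  exact (Prod.mk.inj (Prod.mk.inj (e.injective h)).2).1

lemma gset_inj (e : Bool × Fin (m + 1) × Fin p ↪ Fin n) (β β' : Bool)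
    (x x' : Fin (m + 1) → Fin p) (h : gset e β x = gset e β' x') : β = β' ∧ x = x' := by
  have h1 : ∀ i, β = β' ∧ x i = x' i := by
    intro i
    have h2 : e (β, i, x i) ∈ gset e β' x' := by
      rw [← h, mem_gset]
      exact ⟨rfl, rfl⟩
    rw [mem_gset] at h2
    exact h2
  exact ⟨(h1 0).1, funext fun i => (h1 i).2⟩

/-- the set of variables of a forcing clause -/
def fset (e : Bool × Fin (m + 1) × Fin p ↪ Fin n) (i : Fin (m + 1)) (j : Fin p)
    (x : Fin (m + 1) → Fin p) : Finset (Fin n) :=
  insert (e (true, i, j)) ((Finset.univ.erase (0 : Fin (m + 1))).image (fun i' => e (false, i', x i')))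

lemma mem_fset (e : Bool × Fin (m + 1) × Fin p ↪ Fin n) (i : Fin (m + 1)) (j : Fin p)
    (x : Fin (m + 1) → Fin p) (v : Bool × Fin (m + 1) × Fin p) :
    e v ∈ fset e i j x ↔ v = (true, i, j) ∨ (v.1 = false ∧ v.2.1 ≠ 0 ∧ v.2.2 = x v.2.1) := by
  unfold fset
  rw [Finset.mem_insert, Finset.mem_image]
  constructor
  · rintro (h | ⟨i', hi', h⟩)
    · exact Or.inl (e.injective h)
    · right
      have := e.injective h
      rw [← this]
      exact ⟨rfl, (Finset.mem_erase.1 hi').1, rfl⟩
  · rintro (h | ⟨h1, h2, h3⟩)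
    · left
      rw [h]
    · right
      refine ⟨v.2.1, Finset.mem_erase.2 ⟨h2, Finset.mem_univ _⟩, ?_⟩
      congr 1
      rw [← h1, ← h3]

lemma fset_card (e : Bool × Fin (m + 1) × Fin p ↪ Fin n) (i : Fin (m + 1)) (j : Fin p)
    (x : Fin (m + 1) → Fin p) : (fset e i j x).card = m + 1 := by
  unfold fset
  rw [Finset.card_insert_of_notMem, Finset.card_image_of_injective, Finset.card_erase_of_mem
    (Finset.mem_univ _), Finset.card_univ, Fintype.card_fin]
  · simp
  · intro i' i'' h
    exact (Prod.mk.inj (Prod.mk.inj (e.injective h)).2).1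
  · rw [Finset.mem_image]
    rintro ⟨i', _, h⟩
    have := (Prod.mk.inj (e.injective h)).1
    exact Bool.noConfusion this

/-- the members of a block that stay violated -/
def Sj (j : Fin (m + 1) → Fin p) : Finset (LI' m a) :=
  Finset.univ.filter (fun l => l.2.2 ≠ (j l.1).val.testBit l.2.1.val)

theorem gadget_family (hm : 1 ≤ m) (hpa : p ≤ 2 ^ a) (hn : 2 * (m + 1) * p ≤ n)
    {σ : Type} [Fintype σ] [DecidableEq σ] (pc : KSet n (m + 1) → σ)
    (hpc : Function.Injective pc) (holds : σ → (Fin n → Bool) → Prop)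
    (hh : ∀ K a, holds (pc K) a ↔ ∃ i ∈ K.1, a i = true) :
    ∃ (T : BI m p a × LI' m a → σ) (pts : BI m p a → Finset (LI' m a) → σ → ℂ)
      (w : BI m p a → (Fin (m + 1) → Fin p) → σ), Function.Injective T ∧
      (∀ b v, (∀ l, v ≠ T (b, l)) → ∀ x x', pts b x v = pts b x' v) ∧
      (∀ b i l, w b i ≠ T (b, l)) ∧
      ∀ b, LinearIndependent ℂ (fun (i : Fin (m + 1) → Fin p) (x : Finset (LI' m a)) =>
        eval (pts b x) (pderiv (w b i) (extP holds))) := by
  classical
  obtain ⟨e⟩ : Nonempty (Bool × Fin (m + 1) × Fin p ↪ Fin n) := by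
    refine Function.Embedding.nonempty_of_card_le ?_
    simp only [Fintype.card_prod, Fintype.card_bool, Fintype.card_fin]
    rw [← mul_assoc]
    exact hn
  obtain ⟨Y⟩ : Nonempty (Fin (p / (2 * (m + 1) * a)) × LI' m a ↪ Fin p) := by
    refine Function.Embedding.nonempty_of_card_le ?_
    simp only [Fintype.card_prod, Fintype.card_bool, Fintype.card_fin]
    calc p / (2 * (m + 1) * a) * ((m + 1) * (a * 2)) = p / (2 * (m + 1) * a) * (2 * (m + 1) * a) := by
          ring
      _ ≤ p := Nat.div_mul_le_self _ _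
  have hone : ∃ i1 : Fin (m + 1), i1 ≠ 0 := ⟨⟨1, by omega⟩, by
    intro h
    have := congrArg Fin.val h
    simp at this⟩
  obtain ⟨i1, hi1⟩ := hone
  let tt : BI m p a × LI' m a → KSet n (m + 1) := fun q =>
    ⟨gset e false (xx q.1.1 (Y (q.1.2, q.2))), gset_card _ _ _⟩
  let ww : (Fin (m + 1) → Fin p) → KSet n (m + 1) := fun j => ⟨gset e true j, gset_card _ _ _⟩
  let ff : BI m p a → Fin (m + 1) × Fin p × Fin a → KSet n (m + 1) := fun b z =>
    ⟨fset e z.1 z.2.1 (xx b.1 (Y (b.2, (z.1, z.2.2, z.2.1.val.testBit z.2.2.val)))), fset_card _ _ _ _⟩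
  let Φ : BI m p a → Finset σ := fun b => Finset.univ.image (fun z => pc (ff b z))
  have htt : Function.Injective tt := by
    intro q q' h
    have h1 := (gset_inj e _ _ _ _ (congrArg Subtype.val h)).2
    obtain ⟨h2, h3⟩ := xx_inj _ _ _ _ h1
    have h4 := Y.injective h3
    obtain ⟨⟨u, r⟩, l⟩ := q
    obtain ⟨⟨u', r'⟩, l'⟩ := q'
    simp only [Prod.mk.injEq] at h2 h4 ⊢
    exact ⟨⟨h2, h4.1⟩, h4.2⟩
  refine ⟨fun q => pc (tt q), fun b U => ptG (Φ b) (fun l => pc (tt (b, l))) U,
    fun b j => pc (ww j), hpc.comp htt, ?_, ?_, ?_⟩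
  · intro b v hv x x'
    exact ptG_outside _ _ _ hv _ _
  · intro b j l h
    have h1 := (gset_inj e _ _ _ _ (congrArg Subtype.val (hpc h))).1
    exact Bool.noConfusion h1
  · intro b
    have hYb : ∀ l l' : LI' m a, Y (b.2, l) = Y (b.2, l') → l = l' := fun l l' h =>
      (Prod.mk.inj (Y.injective h)).2
    refine gadget_li holds (Φ b) (fun l => pc (tt (b, l))) (fun j => pc (ww j)) ?_ ?_ ?_
      (fun j => Sj j) ?_ ?_
    · intro j h
      obtain ⟨z, _, hz⟩ := Finset.mem_image.1 h
      have h1 := congrArg Subtype.val (hpc hz)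
      have h2 : e (false, i1, xx b.1 (Y (b.2, (z.1, z.2.2, z.2.1.val.testBit z.2.2.val))) i1) ∈
          (ww j).1 := by
        rw [← h1]
        exact (mem_fset e _ _ _ _).2 (Or.inr ⟨rfl, hi1, rfl⟩)
      have h3 := ((mem_gset e _ _ _).1 h2).1
      exact Bool.noConfusion h3
    · intro l h
      obtain ⟨z, _, hz⟩ := Finset.mem_image.1 h
      have h1 := congrArg Subtype.val (hpc hz)
      have h2 : e (true, z.1, z.2.1) ∈ (tt (b, l)).1 := by
        rw [← h1]
        exact (mem_fset e _ _ _ _).2 (Or.inl rfl)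
      have h3 := ((mem_gset e _ _ _).1 h2).1
      exact Bool.noConfusion h3
    · intro j l h
      have h1 := (gset_inj e _ _ _ _ (congrArg Subtype.val (hpc h))).1
      exact Bool.noConfusion h1
    · intro j
      -- the assignment
      have key : ∀ v : Bool × Fin (m + 1) × Fin p, v.1 = false →
          (∀ l ∈ (Sj j : Finset (LI' m a)), v.2.2 ≠ xx b.1 (Y (b.2, l)) v.2.1) →
          ¬ (e v ∈ gset e true j ∨ ∃ l ∈ (Sj j : Finset (LI' m a)), e v ∈ (tt (b, l)).1) := by
        rintro v hv h (h1 | ⟨l, hl, h1⟩)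
        · rw [mem_gset, hv] at h1
          exact Bool.noConfusion h1.1
        · rw [mem_gset] at h1
          exact h l hl h1.2
      refine ⟨fun v => !decide (v ∈ gset e true j ∨ ∃ l ∈ (Sj j : Finset (LI' m a)),
        v ∈ (tt (b, l)).1), ?_, ?_, ?_⟩
      · rw [hh]
        rintro ⟨v, hv, h⟩
        have h1 : v ∈ gset e true j := hv
        simp [h1] at h
      · intro C hC
        obtain ⟨⟨i, j', s⟩, _, rfl⟩ := Finset.mem_image.1 hC
        rw [hh]
        by_cases hj : j' = j i
        · refine ⟨e (false, i1, xx b.1 (Y (b.2, (i, s, j'.val.testBit s.val))) i1),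
            (mem_fset e _ _ _ _).2 (Or.inr ⟨rfl, hi1, rfl⟩), ?_⟩
          have h1 := key (false, i1, xx b.1 (Y (b.2, (i, s, j'.val.testBit s.val))) i1) rfl (by
            intro l hl h
            have h2 := hYb _ _ (xx_disj _ _ _ _ h)
            rw [← h2] at hl
            have h3 := (Finset.mem_filter.1 hl).2
            exact h3 (by rw [hj]))
          rw [Bool.not_eq_true', decide_eq_false_iff_not]
          exact h1
        · refine ⟨e (true, i, j'), (mem_fset e _ _ _ _).2 (Or.inl rfl), ?_⟩
          rw [Bool.not_eq_true', decide_eq_false_iff_not]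
          rintro (h | ⟨l, _, h⟩)
          · exact hj ((mem_gset e _ _ _).1 h).2
          · exact Bool.noConfusion ((mem_gset e _ _ _).1 h).1
      · intro l
        rw [hh]
        constructor
        · intro h
          by_contra hl
          apply h
          refine ⟨e (false, 0, xx b.1 (Y (b.2, l)) 0), (mem_gset e _ _ _).2 ⟨rfl, rfl⟩, ?_⟩
          have h1 := key (false, 0, xx b.1 (Y (b.2, l)) 0) rfl (by
            intro l' hl' h2
            have h3 := hYb _ _ (xx_disj b.1 _ _ 0 h2)
            rw [← h3] at hl'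
            exact hl hl')
          rw [Bool.not_eq_true', decide_eq_false_iff_not]
          exact h1
        · rintro hl ⟨v, hv, h⟩
          rw [Bool.not_eq_true', decide_eq_false_iff_not] at h
          exact h (Or.inr ⟨l, hl, hv⟩)
    · intro j j' A hA1 hA2 hA3
      funext i
      apply Fin.ext
      apply Nat.eq_of_testBit_eq
      intro s
      by_cases hs : s < a
      · have h1 : pc (ff b (i, j' i, ⟨s, hs⟩)) ∈ Φ b :=
          Finset.mem_image_of_mem _ (Finset.mem_univ _)
        have h2 := (hh _ _).1 (hA2 _ h1)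
        obtain ⟨v, hv, hv2⟩ := h2
        have h3 : v ∈ (tt (b, (i, ⟨s, hs⟩, (j' i).val.testBit s))).1 := by
          have hv' : v ∈ insert (e (true, i, j' i)) ((Finset.univ.erase (0 : Fin (m + 1))).image
            (fun i' => e (false, i', xx b.1 (Y (b.2, (i, ⟨s, hs⟩, (j' i).val.testBit s))) i'))) := hv
          rw [Finset.mem_insert, Finset.mem_image] at hv'
          rcases hv' with h | ⟨i', _, h⟩
          · exfalso
            apply hA1
            rw [hh]
            refine ⟨v, ?_, hv2⟩
            rw [h]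
            exact (mem_gset e _ _ _).2 ⟨rfl, rfl⟩
          · rw [← h]
            exact (mem_gset e _ _ _).2 ⟨rfl, rfl⟩
        have h4 : ¬ (i, (⟨s, hs⟩ : Fin a), (j' i).val.testBit s) ∈ (Sj j : Finset (LI' m a)) := by
          rw [← hA3]
          intro h
          apply h
          rw [hh]
          exact ⟨v, h3, hv2⟩
        unfold Sj at h4
        rw [Finset.mem_filter] at h4
        simp only [Finset.mem_univ, true_and, ne_eq, not_not] at h4
        exact h4
      · have h1 : ∀ q : Fin p, q.val.testBit s = false := by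
          intro q
          apply Nat.testBit_lt_two_pow
          refine lt_of_lt_of_le q.2 (hpa.trans ?_)
          exact Nat.pow_le_pow_right (by norm_num) (by omega)
        rw [h1, h1]

end family

end H58C
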