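import Pool.Agent.Helper58C.Core

/-!
# The limit and the counting inequality
-/

set_option autoImplicit false

namespace H58C

open MvPolynomial Finset Filter Topology H1CL

/-! ### Generic facts -/

/-- `f` is a coefficientwise limit of polynomials computed with at most `p` products. -/
def BorderComp {σ : Type} [Fintype σ] (f : MvPolynomial σ ℂ) (p : ℕ) : Prop :=
  ∃ (s : ℕ → ℕ) (P : ∀ t, Finset (Fin (s t)))
    (g : ∀ t, Fin (s t) → MvPolynomial σ ℂ) (out : ∀ t, Fin (s t)),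
    (∀ t, IsComp (P t) (g t)) ∧ (∀ t, (P t).card ≤ p) ∧
      ∀ μ, Tendsto (fun t => coeff μ (g t (out t))) atTop (𝓝 (coeff μ f))

/-- Few nondegenerate critical points, for limits. -/
theorem border_bound {σ ι : Type} [Fintype σ] [Fintype ι] [DecidableEq ι]
    (f : MvPolynomial σ ℂ) (p : ℕ) (hp : BorderComp f p)
    (lam : σ → MvPolynomial ι ℂ) (hlam : ∀ v, IsAff (lam v))
    (ℓ : ι → ℂ) (Z : Finset (ι → ℂ)) (hZ : ∀ y ∈ Z, IsNCP (aeval lam f) ℓ y) :
    Z.card ≤ 4 ^ (Fintype.card ι + 2 * p) := by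
  obtain ⟨s, P, g, out, hcomp, hPc, hconv⟩ := hp
  have hdeg : ∀ j, (g j (out j)).totalDegree ≤ 2 ^ p := fun j =>
    (hcomp j).totalDegree_le' (hPc j) (out j)
  set D : ℕ := max (2 ^ p) f.totalDegree with hD
  have hconv' : ∀ ν, Tendsto (fun j => coeff ν (aeval lam (g j (out j)))) atTop
      (𝓝 (coeff ν (aeval lam f))) := by
    intro ν
    have h1 : ∀ h : MvPolynomial σ ℂ, h.totalDegree ≤ D →
        coeff ν (aeval lam h) = ∑ μ ∈ degT σ D,
          coeff μ h * coeff ν (aeval lam (monomial μ (1 : ℂ))) := by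
      intro h hh
      rw [aeval_eq_sum_degT h hh, coeff_sum]
      simp only [coeff_C_mul]
    rw [h1 f (le_max_right _ _)]
    simp_rw [fun j => h1 (g j (out j)) ((hdeg j).trans (le_max_left _ _))]
    exact tendsto_finsetSum _ (fun μ _ => (hconv μ).mul_const _)
  have hdeg' : ∀ j, (aeval lam (g j (out j))).totalDegree ≤ 2 ^ p := fun j =>
    ((hcomp j).subst lam hlam).totalDegree_le' (hPc j) (out j)
  set D' : ℕ := max (2 ^ p) (aeval lam f).totalDegree with hD'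
  have hper := pers ι (degT ι D') ℕ atTop
    (fun j => aeval lam (g j (out j))) (aeval lam f)
    (Eventually.of_forall (fun j => support_subset_degT ((hdeg' j).trans (le_max_left _ _))))
    (support_subset_degT (le_max_right _ _)) hconv' ℓ Z hZ
  obtain ⟨j, Z', hZ'c, hZ'⟩ := hper.exists
  have hfin := comp_bound (P j) (g j) (hcomp j) lam hlam (out j) _ Z' hZ'
  rw [hZ'c] at hfin
  refine hfin.trans (Nat.pow_le_pow_right (by norm_num) ?_)
  have := hPc j
  omega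

theorem ncp_const {ι : Type} [Fintype ι] [DecidableEq ι] {f : MvPolynomial ι ℂ} {ℓ y : ι → ℂ}
    (h : IsNCP f ℓ y) (c : ℂ) : IsNCP (C c + f) ℓ y := by
  refine ⟨fun i => ?_, ?_⟩
  · rw [map_add, pderiv_C, zero_add]
    exact h.1 i
  · have h1 : (Matrix.of fun i j => eval y (pderiv i (pderiv j (C c + f))))
        = (Matrix.of fun i j => eval y (pderiv i (pderiv j f))) := by
      ext i j
      simp only [Matrix.of_apply]
      rw [map_add, pderiv_C, zero_add]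
    rw [h1]
    exact h.2

/-! ### The exponents -/

/-- the exponent before normalisation -/
def Dex (κ q s : ℕ) : ℤ :=
  2 * (s.choose (κ + 1) : ℤ) - ((q.choose κ : ℤ) + ((q + 1).choose κ : ℤ)) * s

theorem Dex_step (κ q s : ℕ) : Dex κ q (s + 1) = Dex κ q s +
    (2 * (s.choose κ : ℤ) - ((q.choose κ : ℤ) + ((q + 1).choose κ : ℤ))) := by
  unfold Dex
  rw [Nat.choose_succ_succ]
  push_cast
  ring

theorem choose_lt {κ q : ℕ} (hκ : 1 ≤ κ) (hq : κ ≤ q) : q.choose κ < (q + 1).choose κ := by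
  obtain ⟨j, rfl⟩ : ∃ j, κ = j + 1 := ⟨κ - 1, by omega⟩
  rw [Nat.choose_succ_succ']
  have := Nat.choose_pos (show j ≤ q by omega)
  omega

theorem Dex_up {κ q : ℕ} (hκ : 1 ≤ κ) (hq : κ ≤ q) (d : ℕ) :
    Dex κ q (q + 1) + d ≤ Dex κ q (q + 1 + d) := by
  induction d with
  | zero => simp
  | succ d ih =>
    rw [← add_assoc, Dex_step κ q (q + 1 + d)]
    have h1 : (q + 1).choose κ ≤ (q + 1 + d).choose κ := Nat.choose_le_choose κ (by omega)
    have h2 := choose_lt hκ hq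
    push_cast
    have h1' : (((q + 1).choose κ : ℕ) : ℤ) ≤ ((q + 1 + d).choose κ : ℕ) := by exact_mod_cast h1
    have h2' : ((q.choose κ : ℕ) : ℤ) + 1 ≤ ((q + 1).choose κ : ℕ) := by exact_mod_cast h2
    linarith

theorem Dex_down {κ q : ℕ} (hκ : 1 ≤ κ) (hq : κ ≤ q) (d s : ℕ) (hs : s + d = q + 1) :
    Dex κ q (q + 1) + d ≤ Dex κ q s := by
  induction d generalizing s with
  | zero =>
    rw [show s = q + 1 by omega]
    simp
  | succ d ih =>
    have h0 := ih (s + 1) (by omega)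
    rw [Dex_step κ q s] at h0
    have h1 : s.choose κ ≤ q.choose κ := Nat.choose_le_choose κ (by omega)
    have h2 := choose_lt hκ hq
    have h1' : ((s.choose κ : ℕ) : ℤ) ≤ (q.choose κ : ℕ) := by exact_mod_cast h1
    have h2' : ((q.choose κ : ℕ) : ℤ) + 1 ≤ ((q + 1).choose κ : ℕ) := by exact_mod_cast h2
    push_cast
    linarith

/-- the exponent -/
def ex (κ q s : ℕ) : ℕ := (Dex κ q s - Dex κ q (q + 1)).toNat

theorem ex_self (κ q : ℕ) : ex κ q (q + 1) = 0 := by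
  simp [ex]

theorem Dex_le {κ q : ℕ} (hκ : 1 ≤ κ) (hq : κ ≤ q) (s : ℕ) :
    Dex κ q (q + 1) ≤ Dex κ q s ∧ (s ≠ q + 1 → Dex κ q (q + 1) < Dex κ q s) := by
  rcases le_total s (q + 1) with h | h
  · obtain ⟨d, hd⟩ := Nat.exists_eq_add_of_le h
    have := Dex_down hκ hq d s hd.symm
    exact ⟨by linarith, fun hne => by
      have : 1 ≤ d := by omega
      have : (1 : ℤ) ≤ d := by exact_mod_cast this
      linarith⟩
  · obtain ⟨d, hd⟩ := Nat.exists_eq_add_of_le h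
    have := Dex_up hκ hq d
    rw [← hd] at this
    exact ⟨by linarith, fun hne => by
      have : 1 ≤ d := by omega
      have : (1 : ℤ) ≤ d := by exact_mod_cast this
      linarith⟩

theorem ex_ne {κ q : ℕ} (hκ : 1 ≤ κ) (hq : κ ≤ q) {s : ℕ} (hs : s ≠ q + 1) :
    ex κ q s ≠ 0 := by
  have h := (Dex_le hκ hq s).2 hs
  unfold ex
  omega

theorem ex_cast {κ q : ℕ} (hκ : 1 ≤ κ) (hq : κ ≤ q) (s : ℕ) :
    (ex κ q s : ℤ) = Dex κ q s - Dex κ q (q + 1) := by
  have h := (Dex_le hκ hq s).1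
  unfold ex
  omega

/-! ### The deformed polynomial -/

section

variable (κ q m : ℕ)

/-- the deformed polynomial -/
noncomputable def Fam (t : ℂ) : MvPolynomial (Var κ q m) ℂ :=
  ∑ p : (Fin κ → Fin m) × Finset (Fin (2 * q)), C (t ^ ex κ q p.2.card) * ∏ i ∈ p.2, X (p.1, i)

/-- the limit -/
noncomputable def F0 : MvPolynomial (Var κ q m) ℂ :=
  ∑ g : Fin κ → Fin m, Crit.E g (univ : Finset (Fin (2 * q))) (q + 1)

theorem Fam_zero (hκ : 1 ≤ κ) (hq : κ ≤ q) : Fam κ q m 0 = F0 κ q m := by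
  classical
  unfold Fam F0 Crit.E
  rw [Fintype.sum_prod_type]
  refine Finset.sum_congr rfl fun g _ => ?_
  have h : ∀ T : Finset (Fin (2 * q)), (C ((0 : ℂ) ^ ex κ q T.card) * ∏ i ∈ T, X (g, i) :
      MvPolynomial (Var κ q m) ℂ) = if T.card = q + 1 then ∏ i ∈ T, X (g, i) else 0 := by
    intro T
    by_cases hT : T.card = q + 1
    · rw [if_pos hT, hT, ex_self, pow_zero, map_one, one_mul]
    · rw [if_neg hT, zero_pow (ex_ne hκ hq hT), map_zero, zero_mul]
  simp only [h]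
  rw [← Finset.sum_filter]
  refine Finset.sum_congr ?_ fun _ _ => rfl
  ext T
  simp [Finset.mem_powersetCard]

theorem totalDegree_Fam (t : ℂ) : (Fam κ q m t).totalDegree ≤ 2 * q := by
  unfold Fam
  refine totalDegree_finsetSum_le (fun p _ => ?_)
  refine (totalDegree_mul _ _).trans ?_
  rw [totalDegree_C, zero_add]
  refine (totalDegree_finsetProd _ _).trans ?_
  refine (Finset.sum_le_sum (g := fun _ => 1) (fun i _ => ?_)).trans ?_
  · rw [totalDegree_X]
  · rw [Finset.sum_const, smul_eq_mul, mul_one]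
    exact (Finset.card_le_univ _).trans (by simp)

theorem continuous_coeff_Fam (μ : Var κ q m →₀ ℕ) :
    Continuous (fun t => coeff μ (Fam κ q m t)) := by
  unfold Fam
  simp only [coeff_sum, coeff_C_mul]
  fun_prop

theorem exists_t (hκ : 1 ≤ κ) (hq : κ ≤ q) :
    ∃ (t : ℂ) (ℓ : Var κ q m → ℂ) (Z : Finset (Var κ q m → ℂ)),
    t ≠ 0 ∧ Z.card = q.factorial ^ (2 * m ^ κ) ∧ ∀ y ∈ Z, IsNCP (Fam κ q m t) ℓ y := by
  obtain ⟨ℓ, Z, hZc, hZ⟩ := crit q (by omega) (Fin κ → Fin m)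
  have hF : (∑ g : Fin κ → Fin m, ∑ τ : Fin (q + 1) ↪ Fin (2 * q), ∏ i, X (g, τ i) :
      MvPolynomial (Var κ q m) ℂ) = C (((q + 1).factorial : ℕ) : ℂ) * F0 κ q m := by
    have := Crit.F_eq (G := Fin κ → Fin m) (V := Fin (2 * q)) q
    unfold Crit.F at this
    rw [this, F0]
    simp
  have hf0 : (((q + 1).factorial : ℕ) : ℂ) ≠ 0 :=
    Nat.cast_ne_zero.2 (Nat.factorial_ne_zero _)
  have hZ0 : ∀ y ∈ Z, IsNCP (F0 κ q m) (fun i => ((((q + 1).factorial : ℕ) : ℂ))⁻¹ * ℓ i) y := by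
    intro y hy
    have h1 := (hZ y hy).smul (inv_ne_zero hf0)
    rw [hF, ← mul_assoc, ← C_mul, inv_mul_cancel₀ hf0, C_1, one_mul] at h1
    exact h1
  have htend : ∀ μ : Var κ q m →₀ ℕ, Tendsto (fun t => coeff μ (Fam κ q m t)) (𝓝[≠] 0)
      (𝓝 (coeff μ (F0 κ q m))) := by
    intro μ
    rw [← Fam_zero κ q m hκ hq]
    exact ((continuous_coeff_Fam κ q m μ).tendsto 0).mono_left nhdsWithin_le_nhds
  have h1 := pers (Var κ q m) (degT (Var κ q m) (2 * q)) ℂ (𝓝[≠] 0) (Fam κ q m) (F0 κ q m)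
    (Eventually.of_forall (fun t => support_subset_degT (totalDegree_Fam κ q m t)))
    (by rw [← Fam_zero κ q m hκ hq]; exact support_subset_degT (totalDegree_Fam κ q m 0))
    htend _ Z hZ0
  have h2 : ∀ᶠ t : ℂ in 𝓝[≠] 0, t ≠ 0 := eventually_mem_nhdsWithin
  obtain ⟨t, ht1, ht2⟩ := (h1.and h2).exists
  obtain ⟨Z', hc, hZ'⟩ := ht1
  refine ⟨t, _, Z', ht2, ?_, hZ'⟩
  rw [hc, hZc]
  simp

end

/-- The counting inequality. -/
theorem count_bound (κ q m n p : ℕ) (hκ : 1 ≤ κ) (hq : κ ≤ q) (hn : 2 * q + κ * m ≤ n)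
    (hp : BorderComp (wPoly n (κ + 1)) p) :
    q.factorial ^ (2 * m ^ κ) ≤ 4 ^ (m ^ κ * (2 * q) + 2 * p) := by
  classical
  obtain ⟨t, ℓ, Z, ht, hZc, hZ⟩ := exists_t κ q m hκ hq
  have hne : Nonempty ((Fin (2 * q) ⊕ (Fin κ × Fin m)) ↪ Fin n) := by
    rw [Function.Embedding.nonempty_iff_card_le]
    simpa using hn
  obtain ⟨e⟩ := hne
  set β : ℕ := q.choose κ + (q + 1).choose κ with hβ
  obtain ⟨c, hc⟩ := wPoly_subst e hκ (t ^ 2) ((t ^ β)⁻¹)
  set a : ℂ := t ^ (Dex κ q (q + 1)) with ha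
  have ha0 : a ≠ 0 := zpow_ne_zero _ ht
  have hcoef : ∀ s : ℕ, (t ^ 2) ^ (s.choose (κ + 1)) * ((t ^ β)⁻¹) ^ s = a * t ^ ex κ q s := by
    intro s
    rw [ha, ← zpow_natCast t (ex κ q s), ex_cast hκ hq, ← zpow_add₀ ht]
    rw [show Dex κ q (q + 1) + (Dex κ q s - Dex κ q (q + 1)) = Dex κ q s by ring]
    rw [Dex, zpow_sub₀ ht, inv_pow, ← div_eq_mul_inv]
    congr 1
    · rw [← pow_mul, ← zpow_natCast]
      push_cast
      rfl
    · rw [← pow_mul, ← zpow_natCast]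
      push_cast [hβ]
      rfl
  have hsub : aeval (wt e (t ^ 2) ((t ^ β)⁻¹)) (wPoly n (κ + 1)) = C c + C a * Fam κ q m t := by
    rw [hc]
    congr 1
    unfold Fam
    rw [Finset.mul_sum]
    refine Finset.sum_congr rfl fun p _ => ?_
    rw [hcoef, C_mul, mul_assoc]
  have hfin := border_bound (wPoly n (κ + 1)) p hp (wt e (t ^ 2) ((t ^ β)⁻¹))
    (isAff_wt e _ _) (fun i => a * ℓ i) Z (fun y hy => by
      rw [hsub]
      exact ncp_const ((hZ y hy).smul ha0) c)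
  rw [hZc] at hfin
  refine hfin.trans (Nat.pow_le_pow_right (by norm_num) ?_)
  have h1 : Fintype.card (Var κ q m) = m ^ κ * (2 * q) := by
    simp [Var, Fintype.card_prod]
  rw [h1]

end H58C
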