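import Pool.Agent.Helper58C.Limit

/-!
# The numerical consequence
-/

set_option autoImplicit false

namespace H58C

open MvPolynomial Finset Filter Topology H1CL

/-- logarithms of the counting inequality -/
theorem numeric (κ q p : ℕ) (hq : 1 ≤ q)
    (h : q.factorial ^ (2 * q ^ κ) ≤ 4 ^ (q ^ κ * (2 * q) + 2 * p)) :
    (q : ℝ) ^ (κ + 1) * (Real.log q - 1 - Real.log 4) ≤ p * Real.log 4 := by
  have h1 : ((q.factorial : ℝ)) ^ (2 * q ^ κ) ≤
      (4 : ℝ) ^ (q ^ κ * (2 * q) + 2 * p) := by exact_mod_cast h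
  have hf : (0 : ℝ) < q.factorial := by exact_mod_cast Nat.factorial_pos q
  have h2 := Real.log_le_log (by positivity) h1
  rw [Real.log_pow, Real.log_pow] at h2
  push_cast at h2
  have h3 := log_factorial_ge q hq
  have hq0 : (0 : ℝ) < q := by exact_mod_cast hq
  have h4 : (2 * (q : ℝ) ^ κ) * ((q : ℝ) * Real.log q - q) ≤
      (2 * (q : ℝ) ^ κ) * Real.log (q.factorial) :=
    mul_le_mul_of_nonneg_left h3 (by positivity)
  have h5 := h4.trans h2
  rw [pow_succ]
  linarith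

/-- `n ^ k log n` products. -/
theorem main (k : ℕ) (hk : 2 ≤ k) : ∃ c : ℝ, 0 < c ∧ ∃ n₀ : ℕ, ∀ n : ℕ, n₀ ≤ n → ∀ p : ℕ,
    BorderComp (wPoly n k) p → c * ((n : ℝ) ^ k * Real.log n) ≤ p := by
  obtain ⟨κ, rfl⟩ : ∃ κ, k = κ + 1 := ⟨k - 1, by omega⟩
  have hκ : 1 ≤ κ := by omega
  set B : ℝ := 2 * ((κ : ℝ) + 2) with hB
  have hB4 : 4 ≤ B := by
    have : (1 : ℝ) ≤ κ := by exact_mod_cast hκ
    rw [hB]; linarith
  have hlog4 : 0 < Real.log 4 := Real.log_pos (by norm_num)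
  set L : ℝ := 2 * (Real.log B + 1 + Real.log 4) with hL
  obtain ⟨n₁, hn₁⟩ := (Filter.eventually_atTop.1
    (tendsto_natCast_atTop_atTop (R := ℝ) |>.eventually_ge_atTop (Real.exp L)))
  refine ⟨1 / (2 * B ^ (κ + 1) * Real.log 4), by positivity,
    max n₁ (2 * ((κ + 2) * (κ + 2))), fun n hn p hp => ?_⟩
  have hn1 : Real.exp L ≤ n := hn₁ n ((le_max_left _ _).trans hn)
  have hn2 : 2 * ((κ + 2) * (κ + 2)) ≤ n := (le_max_right _ _).trans hn
  set q : ℕ := n / (κ + 2) with hqdef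
  have hqn : (κ + 2) * q ≤ n := Nat.mul_div_le n (κ + 2)
  have hqlt : n < (κ + 2) * (q + 1) := Nat.lt_mul_div_succ n (by omega)
  have hq2 : 2 * (κ + 2) ≤ q := by
    rw [hqdef, Nat.le_div_iff_mul_le (by omega)]
    calc 2 * (κ + 2) * (κ + 2) = 2 * ((κ + 2) * (κ + 2)) := by ring
      _ ≤ n := hn2
  have hcount := count_bound κ q q n p hκ (by omega) (by
    calc 2 * q + κ * q = (κ + 2) * q := by ring
      _ ≤ n := hqn) hp
  have hnum := numeric κ q p (by omega) hcount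
  have hq0 : (0 : ℝ) < q := by
    have : 0 < q := by omega
    exact_mod_cast this
  have hn0 : (0 : ℝ) < n := (Real.exp_pos L).trans_le hn1
  have hnq : (n : ℝ) ≤ B * q := by
    have h1 : n ≤ (κ + 2) * (2 * q) := by
      refine hqlt.le.trans (Nat.mul_le_mul_left _ ?_)
      omega
    have h2 : (n : ℝ) ≤ ((κ : ℝ) + 2) * (2 * q) := by exact_mod_cast h1
    rw [hB]; linarith
  have hB0 : 0 < B := by linarith
  have hlogn : L ≤ Real.log n := by
    rw [Real.le_log_iff_exp_le hn0]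
    exact hn1
  have hlogq : Real.log n ≤ Real.log B + Real.log q := by
    rw [← Real.log_mul hB0.ne' hq0.ne']
    exact Real.log_le_log hn0 hnq
  have hlogpos : 0 ≤ Real.log n := by
    have : 0 ≤ L := by
      have := Real.log_nonneg (show (1 : ℝ) ≤ B by linarith)
      rw [hL]; positivity
    linarith
  have h1 : Real.log n / 2 ≤ Real.log q - 1 - Real.log 4 := by
    rw [hL] at hlogn
    linarith
  have h2 : ((n : ℝ) / B) ^ (κ + 1) ≤ (q : ℝ) ^ (κ + 1) := by
    refine pow_le_pow_left₀ (by positivity) ?_ _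
    rw [div_le_iff₀ hB0]
    linarith
  have h3 : ((n : ℝ) / B) ^ (κ + 1) * (Real.log n / 2) ≤ p * Real.log 4 :=
    (mul_le_mul h2 h1 (by linarith) (by positivity)).trans hnum
  have h4 : 1 / (2 * B ^ (κ + 1) * Real.log 4) * ((n : ℝ) ^ (κ + 1) * Real.log n) =
      ((n : ℝ) / B) ^ (κ + 1) * (Real.log n / 2) / Real.log 4 := by
    rw [div_pow]
    field_simp
  rw [h4, div_le_iff₀ hlog4]
  exact h3

end H58C
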